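import Pool.Agent.H9.SE.TarK

/-! # MP_eaeaf5_lc, modules KL, KM, KN: enumerations of countable models, good values -/

set_option linter.unusedVariables false

open Ordinal Order Set
open scoped ZFSet

namespace SE

open SF CAA

section tools

variable {f g h k : (V → Prop) → (ℕ → V) → V}

theorem klm_ball {R : (V → Prop) → V → (ℕ → V) → Prop} (h1 : Tm ZFm f)
    (h2 : Dfb ZFm (fun M v => R M (v 0) (fun i => v (i + 1)))) :
    Dfb ZFm (fun M v => ∀ x ∈ f M v, R M x v) :=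
  (Dfb.ball ktr_zfm h1 h2).congr fun M k v hv => Iff.rfl

theorem klm_bex {R : (V → Prop) → V → (ℕ → V) → Prop} (h1 : Tm ZFm f)
    (h2 : Dfb ZFm (fun M v => R M (v 0) (fun i => v (i + 1)))) :
    Dfb ZFm (fun M v => ∃ x ∈ f M v, R M x v) :=
  (Dfb.bex ktr_zfm h1 h2).congr fun M k v hv => Iff.rfl

theorem klm_sep {R : (V → Prop) → V → (ℕ → V) → Prop} (h1 : Tm ZFm f)
    (h2 : Dfb ZFm (fun M v => R M (v 0) (fun i => v (i + 1)))) :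
    Tm ZFm (fun M v => (f M v).sep fun x => R M x v) :=
  (Tm.sep h2 h1).congr fun M k v hv => rfl

theorem klm_at4 {P : (V → Prop) → V → V → V → V → Prop}
    (hP : Dfb ZFm (fun M v => P M (v 0) (v 1) (v 2) (v 3)))
    (h1 : Tm ZFm f) (h2 : Tm ZFm g) (h3 : Tm ZFm h) (h4 : Tm ZFm k) :
    Dfb ZFm (fun M v => P M (f M v) (g M v) (h M v) (k M v)) :=
  hP.comp (args [f, g, h, k]) (tm_args _ (by
    intro a ha; simp only [List.mem_cons, List.not_mem_nil, or_false] at ha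
    rcases ha with rfl | rfl | rfl | rfl <;> assumption))

theorem klm_ky (n : ℕ) (h1 : Tm ZFm f) : Tm ZFm (fun M v => ky n (f M v)) :=
  Tm.pair (Tm.nS n) h1

end tools

theorem klm_ky_inj {m n : ℕ} {x y : V} (h : ky m x = ky n y) : m = n ∧ x = y := by
  unfold ky at h
  obtain ⟨h1, h2⟩ := ZFSet.pair_inj.1 h
  exact ⟨nS_inj.1 h1, h2⟩

theorem klm_one_ne (x y : V) : ZFSet.pair x y ≠ nS 1 := by
  intro h
  have h1 : ({x} : V) ∈ ZFSet.pair x y := by simp [ZFSet.pair]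
  rw [h, show (1 : ℕ) = 0 + 1 from rfl, nS_succ, nS_zero] at h1
  simp only [ZFSet.mem_insert_iff, ZFSet.notMem_empty, or_false] at h1
  have h2 : x ∈ ({x} : V) := by simp
  rw [h1] at h2
  exact ZFSet.notMem_empty _ h2

theorem klm_zero_ne_one : (∅ : V) ≠ nS 1 := fun h => nS_ne_empty 0 h.symm

/-- elements of `hf` are in every transitive model -/
theorem klm_hf_sub (hAA : T_AA) {T : V} (hT : ZFm (· ∈ T)) : hf ⊆ T := by
  obtain ⟨-, -, -, -, -, -, -, htm, -⟩ := hAA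
  have h1 : hf ∈ T := htm.1 (· ∈ T) hT (fun _ => om) (fun _ => hT.inf)
  intro x hx
  exact hT.trans hf h1 x hx

/-! ## KL -/

/-- the enumeration -/
noncomputable def klG (x f z : V) : V :=
  sel (z = ∅) x (sel (z = nS 1) om (sel (∃ k ∈ hf, z = ZFSet.pair (nS 1) k) (snd z)
    (sel (∃ n ∈ om, z = ZFSet.pair ∅ n) (app f (snd z)) x)))

theorem klG_tm (hAA : T_AA) : Tm ZFm (fun _ v => klG (v 1) (v 2) (v 0)) := by
  obtain ⟨-, -, -, -, -, -, -, htm, -⟩ := hAA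
  refine Tm.sel (Dfb.eq (Tm.var 0) Tm.empty) (Tm.var 1) (Tm.sel (Dfb.eq (Tm.var 0) (Tm.nS 1))
    Tm.om (Tm.sel ?_ (Tm.snd (Tm.var 0)) (Tm.sel ?_ (Tm.app (Tm.var 2) (Tm.snd (Tm.var 0)))
      (Tm.var 1))))
  · exact klm_bex htm (Dfb.eq (Tm.var 1) (Tm.pair (Tm.nS 1) (Tm.var 0)))
  · exact klm_bex Tm.om (Dfb.eq (Tm.var 1) (Tm.pair Tm.empty (Tm.var 0)))

theorem klG_empty (x f : V) : klG x f ∅ = x := by
  unfold klG
  rw [sel_pos rfl]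

theorem klG_one (x f : V) : klG x f (nS 1) = om := by
  unfold klG
  rw [sel_neg (fun h => klm_zero_ne_one h.symm), sel_pos rfl]

theorem klG_nm (x f k : V) (hk : k ∈ hf) : klG x f (ZFSet.pair (nS 1) k) = k := by
  unfold klG
  rw [sel_neg (pair_ne_empty _ _), sel_neg (klm_one_ne _ _), sel_pos ⟨k, hk, rfl⟩, snd_pair]

theorem klG_zero (x f n : V) (hn : n ∈ om) : klG x f (ZFSet.pair ∅ n) = app f n := by
  unfold klG
  rw [sel_neg (pair_ne_empty _ _), sel_neg (klm_one_ne _ _), sel_neg, sel_pos ⟨n, hn, rfl⟩,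
    snd_pair]
  rintro ⟨k, -, h⟩
  exact klm_zero_ne_one (ZFSet.pair_inj.1 h).1

theorem klG_mem {x f z T : V} (hx : x ∈ T) (hom : om ∈ T) (hT : hf ⊆ T)
    (hfT : ∀ n ∈ om, app f n ∈ T) : klG x f z ∈ T := by
  unfold klG
  by_cases h1 : z = ∅
  · rw [sel_pos h1]; exact hx
  rw [sel_neg h1]
  by_cases h2 : z = nS 1
  · rw [sel_pos h2]; exact hom
  rw [sel_neg h2]
  by_cases h3 : ∃ k ∈ hf, z = ZFSet.pair (nS 1) k
  · rw [sel_pos h3]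
    obtain ⟨k, hk, rfl⟩ := h3
    rw [snd_pair]
    exact hT hk
  rw [sel_neg h3]
  by_cases h4 : ∃ n ∈ om, z = ZFSet.pair ∅ n
  · rw [sel_pos h4]
    obtain ⟨n, hn, rfl⟩ := h4
    rw [snd_pair]
    exact hfT n hn
  rw [sel_neg h4]
  exact hx

theorem t_kl (hAA : T_AA) : T_KL := by
  intro W hW T x hWT hct hT hxT hRx
  have hsub := klm_hf_sub hAA hT
  have htmG := klG_tm hAA
  obtain ⟨htr, hnS, homs, hpr, hfin1, hfin2, hfin3, htm, hctb⟩ := hAA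
  rcases hct with rfl | ⟨f, hf1, hf2⟩
  · exact absurd hxT (ZFSet.notMem_empty _)
  have happ : ∀ n ∈ om, app f n ∈ T := fun n hn => app_mem hf2.1 hn
  have hWx : W x := hW.trans _ hWT x hxT
  refine ⟨resS hf (klG x f), ?_, ⟨hT, ⟨?_, ?_⟩, ?_, ?_, ?_⟩, ?_⟩
  · have h1 := Tm.resS (f := fun _ _ => hf) (g := fun _ v => klG (v 1) (v 2) (v 0)) htm htmG
    exact h1.1 W hW (cons x fun _ => f) ((In.cons (fun _ => hf1)) hWx)
  · exact isFunc_resS _ _ _ fun z hz => klG_mem hxT hT.inf hsub happ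
  · intro y hy
    obtain ⟨n, hn, hny⟩ := hf2.2 y hy
    refine ⟨ZFSet.pair ∅ n, ?_, ?_⟩
    · have h0 := hnS 0
      rw [nS_zero] at h0
      exact hpr _ h0 _ (homs hn)
    · rw [pair_mem_resS]
      refine ⟨?_, ?_⟩
      · have h0 := hnS 0
        rw [nS_zero] at h0
        exact hpr _ h0 _ (homs hn)
      · rw [klG_zero x f n hn, app_eq (svl_of_isFunc hf2.1) hny]
  · intro h hh
    rw [nm, app_resS (hpr _ (hnS 1) _ hh), klG_nm x f h hh]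
  · rw [app_resS (hnS 1), klG_one]
  · have h0 := hnS 0
    rw [nS_zero] at h0
    rw [app_resS h0, klG_empty]
    exact hRx
  · have h0 := hnS 0
    rw [nS_zero] at h0
    rw [app_resS h0, klG_empty]

/-! ## KM -/

/-- unfolding of good values -/
theorem gb_iff (T g h b : V) : Gb T g h b ↔
    (∀ c ∈ CD, ∀ t ∈ PL hf, h = ky 0 (ZFSet.pair c t) → (b = nS 1 ↔ mpl g t ∈ sS T ∅ c)) ∧
    (∀ c ∈ CD, ∀ t ∈ PL hf, h = ky 13 (ZFSet.pair c t) →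
      (∃ y ∈ hf, mpl g (psh y t) ∈ sS T ∅ c) → mpl g (psh b t) ∈ sS T ∅ c) ∧
    (∀ m ∈ hf, ∀ n ∈ hf, h = ky 2 (ZFSet.pair m n) → ¬ app g m = app g n →
      ¬ (app g b ∈ app g m ↔ app g b ∈ app g n)) ∧
    (∀ z ∈ hf, ∀ k ∈ hf, h = ky 3 (ZFSet.pair z k) → app g z ∈ k → b = app g z) ∧
    (∀ z ∈ hf, h = ky 4 z → app g z ∈ SF.om → b = app g z) ∧
    (∀ z ∈ hf, h = ky 5 z → app g z ∈ app g ∅ → b ∈ SF.om ∧
      app g z = ZFSet.pair b (app (app g ∅) b)) ∧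
    (∀ n ∈ SF.om, h = ky 9 n → b = app (app g ∅) n) ∧
    (∀ m ∈ hf, ∀ n ∈ hf, h = ky 6 (ZFSet.pair m n) → app g b = {app g m, app g n}) ∧
    (∀ m ∈ hf, h = ky 7 m → app g b = (⋃₀ (app g m) : ZFSet)) ∧
    (∀ m ∈ hf, ∀ z ∈ hf, h = ky 8 (ZFSet.pair m z) → (∃ u ∈ app g m, app g z ∈ u) →
      app g z ∈ app g b ∧ app g b ∈ app g m) ∧
    (∀ c ∈ CD, ∀ t ∈ PL hf, ∀ a ∈ hf, h = ky 10 (ZFSet.pair c (ZFSet.pair t a)) →
      app g b = (app g a).sep fun z => psh z (mpl g t) ∈ sS T ∅ c) ∧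
    (∀ c ∈ CD, ∀ t ∈ PL hf, ∀ a ∈ hf, h = ky 11 (ZFSet.pair c (ZFSet.pair t a)) →
      ∀ x ∈ app g a, (∃ y ∈ T, psh y (psh x (mpl g t)) ∈ sS T ∅ c) →
        ∃ y ∈ app g b, psh y (psh x (mpl g t)) ∈ sS T ∅ c) ∧
    (∀ c ∈ CD, ∀ t ∈ PL hf, ∀ a ∈ hf, ∀ x ∈ hf,
      h = ky 12 (ZFSet.pair c (ZFSet.pair t (ZFSet.pair a x))) →
      (∃ y ∈ app g a, psh y (psh (app g x) (mpl g t)) ∈ sS T ∅ c) →
        app g b ∈ app g a ∧ psh (app g b) (psh (app g x) (mpl g t)) ∈ sS T ∅ c) := by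
  constructor
  · rintro ⟨h1, h2, h3, h4, h5, h6, h7, h8, h9, h10, h11, h12, h13⟩
    exact ⟨h1, h2, h3, h4, h5, h6, h7, h8, h9, h10, h11, h12, h13⟩
  · rintro ⟨h1, h2, h3, h4, h5, h6, h7, h8, h9, h10, h11, h12, h13⟩
    exact ⟨h1, h2, h3, h4, h5, h6, h7, h8, h9, h10, h11, h12, h13⟩

theorem dfb_gb (hAA : T_AA) : Dfb ZFm (fun _ v => Gb (v 0) (v 1) (v 2) (v 3)) := by
  obtain ⟨-, -, -, -, -, -, -, htm, -⟩ := hAA
  refine Dfb.congr (R := fun _ v => _) ?_ fun M k v hv => (gb_iff _ _ _ _).symm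
  refine Dfb.and (klm_ball Tm.CD (klm_ball (Tm.PL htm) (Dfb.imp (Dfb.eq ?_ ?_)
      (Dfb.iff (Dfb.eq ?_ ?_) (Dfb.mem ?_ ?_))))) (Dfb.and
    (klm_ball Tm.CD (klm_ball (Tm.PL htm) (Dfb.imp (Dfb.eq ?_ ?_) (Dfb.imp
      (klm_bex htm (Dfb.mem ?_ ?_)) (Dfb.mem ?_ ?_))))) (Dfb.and
    (klm_ball htm (klm_ball htm (Dfb.imp (Dfb.eq ?_ ?_) (Dfb.imp (Dfb.not (Dfb.eq ?_ ?_))
      (Dfb.not (Dfb.iff (Dfb.mem ?_ ?_) (Dfb.mem ?_ ?_))))))) (Dfb.and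
    (klm_ball htm (klm_ball htm (Dfb.imp (Dfb.eq ?_ ?_) (Dfb.imp (Dfb.mem ?_ ?_)
      (Dfb.eq ?_ ?_))))) (Dfb.and
    (klm_ball htm (Dfb.imp (Dfb.eq ?_ ?_) (Dfb.imp (Dfb.mem ?_ ?_) (Dfb.eq ?_ ?_)))) (Dfb.and
    (klm_ball htm (Dfb.imp (Dfb.eq ?_ ?_) (Dfb.imp (Dfb.mem ?_ ?_)
      (Dfb.and (Dfb.mem ?_ ?_) (Dfb.eq ?_ ?_))))) (Dfb.and
    (klm_ball Tm.om (Dfb.imp (Dfb.eq ?_ ?_) (Dfb.eq ?_ ?_))) (Dfb.and
    (klm_ball htm (klm_ball htm (Dfb.imp (Dfb.eq ?_ ?_) (Dfb.eq ?_ ?_)))) (Dfb.and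
    (klm_ball htm (Dfb.imp (Dfb.eq ?_ ?_) (Dfb.eq ?_ ?_))) (Dfb.and
    (klm_ball htm (klm_ball htm (Dfb.imp (Dfb.eq ?_ ?_) (Dfb.imp
      (klm_bex ?_ (Dfb.mem ?_ ?_)) (Dfb.and (Dfb.mem ?_ ?_) (Dfb.mem ?_ ?_)))))) (Dfb.and
    (klm_ball Tm.CD (klm_ball (Tm.PL htm) (klm_ball htm (Dfb.imp (Dfb.eq ?_ ?_)
      (Dfb.eq ?_ (klm_sep ?_ (Dfb.mem ?_ ?_))))))) (Dfb.and
    (klm_ball Tm.CD (klm_ball (Tm.PL htm) (klm_ball htm (Dfb.imp (Dfb.eq ?_ ?_)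
      (klm_ball ?_ (Dfb.imp (klm_bex ?_ (Dfb.mem ?_ ?_)) (klm_bex ?_ (Dfb.mem ?_ ?_))))))))
    (klm_ball Tm.CD (klm_ball (Tm.PL htm) (klm_ball htm (klm_ball htm
      (Dfb.imp (Dfb.eq ?_ ?_) (Dfb.imp (klm_bex ?_ (Dfb.mem ?_ ?_))
        (Dfb.and (Dfb.mem ?_ ?_) (Dfb.mem ?_ ?_)))))))))))))))))))
  all_goals (repeat' with_reducible first
    | exact Tm.var _ | exact Tm.empty | exact Tm.om | exact Tm.nS _ | exact Tm.CD | assumption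
    | apply klm_ky | apply Tm.psh | apply Tm.mpl | apply Tm.PL | apply Tm.app
    | apply Tm.sS | apply Tm.pair | apply Tm.sUnion | apply Tm.upair)

/-- the choice function -/
noncomputable def kmC (T g e h : V) : V := (⋃₀ (hf.sep fun b => ∃ n ∈ om, b = app e n ∧
  (Gb T g h b ∧ ∀ m ∈ n, ¬ Gb T g h (app e m))) : ZFSet)

theorem kmC_tm (hAA : T_AA) : Tm ZFm (fun _ v => kmC (v 1) (v 2) (v 3) (v 0)) := by
  have hgb := dfb_gb hAA
  obtain ⟨-, -, -, -, -, -, -, htm, -⟩ := hAA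
  refine Tm.sUnion (klm_sep htm (klm_bex Tm.om (Dfb.and (Dfb.eq ?_ ?_) (Dfb.and ?_ (klm_ball ?_
    (Dfb.not ?_))))))
  · exact Tm.var 1
  · exact Tm.app (Tm.var 5) (Tm.var 0)
  · exact klm_at4 (P := fun _ a b c d => Gb a b c d) hgb (Tm.var 3) (Tm.var 4) (Tm.var 2) (Tm.var 1)
  · exact Tm.var 0
  · exact klm_at4 (P := fun _ a b c d => Gb a b c d) hgb (Tm.var 4) (Tm.var 5) (Tm.var 3)
      (Tm.app (Tm.var 6) (Tm.var 0))

theorem kmC_spec {T g e h : V} (he : Onto e om hf) (hb : ∃ b ∈ hf, Gb T g h b) :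
    kmC T g e h ∈ hf ∧ Gb T g h (kmC T g e h) := by
  classical
  have hex : ∃ n : ℕ, Gb T g h (app e (nS n)) := by
    obtain ⟨b, hb1, hb2⟩ := hb
    obtain ⟨n, hn, hnb⟩ := he.2 b hb1
    obtain ⟨n, rfl⟩ := mem_om.1 hn
    refine ⟨n, ?_⟩
    rw [app_eq (svl_of_isFunc he.1) hnb]
    exact hb2
  have hspec := Nat.find_spec hex
  have hmin : ∀ m, m < Nat.find hex → ¬ Gb T g h (app e (nS m)) := fun m hm =>
    Nat.find_min hex hm
  generalize Nat.find hex = n at hspec hmin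
  have hmem : app e (nS n) ∈ hf := app_mem he.1 (nS_mem_om n)
  have hset : (hf.sep fun b => ∃ n ∈ om, b = app e n ∧
      (Gb T g h b ∧ ∀ m ∈ n, ¬ Gb T g h (app e m))) = {app e (nS n)} := by
    ext z
    rw [ZFSet.mem_sep, ZFSet.mem_singleton]
    constructor
    · rintro ⟨-, m, hm, rfl, h1, h2⟩
      obtain ⟨m, rfl⟩ := mem_om.1 hm
      rcases lt_trichotomy m n with h3 | h3 | h3
      · exact absurd h1 (hmin m h3)
      · rw [h3]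
      · exact absurd hspec (h2 _ (nS_mem_nS.2 h3))
    · rintro rfl
      refine ⟨hmem, nS n, nS_mem_om n, rfl, hspec, ?_⟩
      intro m hm
      obtain ⟨k, rfl⟩ : ∃ k : ℕ, m = nS k := by
        obtain ⟨a, ha, rfl⟩ := Ordinal.mem_toZFSet_iff.1 hm
        obtain ⟨k, rfl⟩ := Ordinal.lt_omega0.1 (ha.trans (Ordinal.natCast_lt_omega0 n))
        exact ⟨k, rfl⟩
      exact hmin k (nS_mem_nS.1 hm)
  have e1 : kmC T g e h = app e (nS n) := by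
    unfold kmC
    rw [hset, ZFSet.sUnion_singleton]
  rw [e1]
  exact ⟨hmem, hspec⟩

theorem t_km (hAA : T_AA) : T_KM := by
  refine ⟨dfb_gb hAA, ?_⟩
  intro W hW T g hWT hWg hb
  have htmC := kmC_tm hAA
  obtain ⟨htr, hnS, homs, hpr, hfin1, hfin2, hfin3, htm, hctb⟩ := hAA
  have hne : hf ≠ (∅ : V) := by
    intro h
    have h0 := hnS 0
    rw [h] at h0
    exact ZFSet.notMem_empty _ h0
  rcases hctb W hW.toZFm with h | ⟨e, he1, he2⟩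
  · exact absurd h hne
  have hs : ∀ h ∈ hf, kmC T g e h ∈ hf ∧ Gb T g h (kmC T g e h) :=
    fun h hh => kmC_spec he2 (hb h hh)
  refine ⟨resS hf (kmC T g e), ?_, ?_, ?_⟩
  · have h1 := Tm.resS (f := fun _ _ => hf) (g := fun _ v => kmC (v 1) (v 2) (v 3) (v 0)) htm htmC
    exact h1.1 W hW.toZFm (cons T (cons g fun _ => e))
      ((In.cons ((In.cons (fun _ => he1)) hWg)) hWT)
  · exact isFunc_resS _ _ _ fun z hz => (hs z hz).1
  · intro h hh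
    rw [app_resS hh]
    exact (hs h hh).2

end SE
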