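import Pool.Agent.H63.SE.KL

/-! # MP_eaeaf5_lc, module KN: good values exist -/

set_option linter.unusedVariables false

open Ordinal Order Set
open scoped ZFSet

namespace SE

open SF CAA

/-- the other conditions are void -/
theorem kn_void {m n : ℕ} {x y : V} {P : Prop} (h : ky m x = ky n y) (hmn : m ≠ n) : P :=
  absurd (klm_ky_inj h).1 hmn

theorem kn_mpl_mem {T g t : V} (hg : Onto g hf T) (ht : t ∈ PL hf) : mpl g t ∈ PL T := by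
  obtain ⟨d, l, rfl, hd, hl⟩ := mem_PL.1 ht
  rw [mpl_pl]
  refine mem_PL.2 ⟨_, _, rfl, app_mem hg.1 hd, ?_⟩
  intro p hp
  obtain ⟨q, hq, rfl⟩ := List.mem_map.1 hp
  exact app_mem hg.1 (hl q hq)

/-- the set of the `x ∈ a` for which the formula has a witness -/
theorem kn_ex {T c t x : V} (hc : c ∈ CD) (ht : t ∈ PL T) (hx : x ∈ T) :
    psh x t ∈ sS T ∅ (ZFSet.pair (nS 5) c) ↔ ∃ y ∈ T, psh y (psh x t) ∈ sS T ∅ c := by
  obtain ⟨φ, rfl⟩ := mem_CD.1 hc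
  obtain ⟨d, l, rfl, hd, hl⟩ := mem_PL.1 ht
  have e : ZFSet.pair (nS 5) (cd φ) = cd (.ex φ) := rfl
  have hl1 : ∀ p ∈ x :: l, p ∈ T := by
    intro p hp
    rcases List.mem_cons.1 hp with rfl | hp
    · exact hx
    · exact hl p hp
  rw [e, psh_pl, pl_mem_sS hd hl1]
  simp only [SatP]
  refine exists_congr fun y => and_congr_right fun hy => ?_
  have hl2 : ∀ p ∈ y :: x :: l, p ∈ T := by
    intro p hp
    rcases List.mem_cons.1 hp with rfl | hp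
    · exact hy
    · exact hl1 p hp
  rw [psh_pl, pl_mem_sS hd hl2, getD_cons, getD_cons, getD_cons]

theorem t_kn (hAA : T_AA) : T_KN := by
  intro T g hE h hh
  have hT := hE.zf
  have hsub := klm_hf_sub hAA hT
  obtain ⟨htr, hnS, homs, hpr, hfin1, hfin2, hfin3, htm, hctb⟩ := hAA
  have hnS0 : (∅ : V) ∈ hf := by
    have h0 := hnS 0
    rwa [nS_zero] at h0
  obtain ⟨z1, z2, z3, z4, z5, z6⟩ := zfm_iff.1 hT
  have hon := hE.on
  have sur : ∀ y ∈ T, ∃ b ∈ hf, app g b = y := by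
    intro y hy
    obtain ⟨b, hb, hby⟩ := hon.2 y hy
    exact ⟨b, hb, app_eq (svl_of_isFunc hon.1) hby⟩
  have gT : ∀ b ∈ hf, app g b ∈ T := fun b hb => app_mem hon.1 hb
  have trT : ∀ x ∈ T, ∀ y ∈ x, y ∈ T := fun x hx y hy => hT.trans x hx y hy
  by_cases c0 : ∃ c ∈ CD, ∃ t ∈ PL hf, h = ky 0 (ZFSet.pair c t)
  · obtain ⟨c, hc, t, ht, rfl⟩ := c0
    by_cases hm : mpl g t ∈ sS T ∅ c
    · refine ⟨nS 1, hnS 1, ⟨?_, ?_, ?_, ?_, ?_, ?_, ?_, ?_, ?_, ?_, ?_, ?_, ?_⟩⟩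
      case refine_1 =>
        intro c' hc' t' ht' he
        obtain ⟨rfl, rfl⟩ := ZFSet.pair_inj.1 (klm_ky_inj he).2
        exact ⟨fun _ => hm, fun _ => rfl⟩
      all_goals (intros; exact kn_void ‹ky _ _ = ky _ _› (by decide))
    · refine ⟨∅, hnS0, ⟨?_, ?_, ?_, ?_, ?_, ?_, ?_, ?_, ?_, ?_, ?_, ?_, ?_⟩⟩
      case refine_1 =>
        intro c' hc' t' ht' he
        obtain ⟨rfl, rfl⟩ := ZFSet.pair_inj.1 (klm_ky_inj he).2
        exact ⟨fun h => absurd h klm_zero_ne_one, fun h => absurd h hm⟩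
      all_goals (intros; exact kn_void ‹ky _ _ = ky _ _› (by decide))
  by_cases c1 : ∃ c ∈ CD, ∃ t ∈ PL hf, h = ky 13 (ZFSet.pair c t)
  · obtain ⟨c, hc, t, ht, rfl⟩ := c1
    by_cases hm : ∃ y ∈ hf, mpl g (psh y t) ∈ sS T ∅ c
    · obtain ⟨b, hb, hb2⟩ := hm
      refine ⟨b, hb, ⟨?_, ?_, ?_, ?_, ?_, ?_, ?_, ?_, ?_, ?_, ?_, ?_, ?_⟩⟩
      case refine_2 =>
        intro c' hc' t' ht' he _
        obtain ⟨rfl, rfl⟩ := ZFSet.pair_inj.1 (klm_ky_inj he).2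
        exact hb2
      all_goals (intros; exact kn_void ‹ky _ _ = ky _ _› (by decide))
    · refine ⟨∅, hnS0, ⟨?_, ?_, ?_, ?_, ?_, ?_, ?_, ?_, ?_, ?_, ?_, ?_, ?_⟩⟩
      case refine_2 =>
        intro c' hc' t' ht' he h'
        obtain ⟨rfl, rfl⟩ := ZFSet.pair_inj.1 (klm_ky_inj he).2
        exact absurd h' hm
      all_goals (intros; exact kn_void ‹ky _ _ = ky _ _› (by decide))
  by_cases c2 : ∃ m ∈ hf, ∃ n ∈ hf, h = ky 2 (ZFSet.pair m n)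
  · obtain ⟨m, hm, n, hn, rfl⟩ := c2
    by_cases hne : app g m = app g n
    · refine ⟨∅, hnS0, ⟨?_, ?_, ?_, ?_, ?_, ?_, ?_, ?_, ?_, ?_, ?_, ?_, ?_⟩⟩
      case refine_3 =>
        intro m' hm' n' hn' he h'
        obtain ⟨rfl, rfl⟩ := ZFSet.pair_inj.1 (klm_ky_inj he).2
        exact absurd hne h'
      all_goals (intros; exact kn_void ‹ky _ _ = ky _ _› (by decide))
    · have h1 : ∃ y ∈ T, ¬ (y ∈ app g m ↔ y ∈ app g n) := by
        by_contra hcon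
        push Not at hcon
        apply hne
        ext y
        constructor
        · intro hy
          exact (hcon y (trT _ (gT m hm) y hy)).1 hy
        · intro hy
          exact (hcon y (trT _ (gT n hn) y hy)).2 hy
      obtain ⟨y, hy, hy2⟩ := h1
      obtain ⟨b, hb, rfl⟩ := sur y hy
      refine ⟨b, hb, ⟨?_, ?_, ?_, ?_, ?_, ?_, ?_, ?_, ?_, ?_, ?_, ?_, ?_⟩⟩
      case refine_3 =>
        intro m' hm' n' hn' he h'
        obtain ⟨rfl, rfl⟩ := ZFSet.pair_inj.1 (klm_ky_inj he).2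
        exact hy2
      all_goals (intros; exact kn_void ‹ky _ _ = ky _ _› (by decide))
  by_cases c3 : ∃ z ∈ hf, ∃ k ∈ hf, h = ky 3 (ZFSet.pair z k)
  · obtain ⟨z, hz, k, hk, rfl⟩ := c3
    by_cases hm : app g z ∈ k
    · refine ⟨app g z, htr k hk hm, ⟨?_, ?_, ?_, ?_, ?_, ?_, ?_, ?_, ?_, ?_, ?_, ?_, ?_⟩⟩
      case refine_4 =>
        intro z' hz' k' hk' he h'
        obtain ⟨rfl, rfl⟩ := ZFSet.pair_inj.1 (klm_ky_inj he).2
        rfl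
      all_goals (intros; exact kn_void ‹ky _ _ = ky _ _› (by decide))
    · refine ⟨∅, hnS0, ⟨?_, ?_, ?_, ?_, ?_, ?_, ?_, ?_, ?_, ?_, ?_, ?_, ?_⟩⟩
      case refine_4 =>
        intro z' hz' k' hk' he h'
        obtain ⟨rfl, rfl⟩ := ZFSet.pair_inj.1 (klm_ky_inj he).2
        exact absurd h' hm
      all_goals (intros; exact kn_void ‹ky _ _ = ky _ _› (by decide))
  by_cases c4 : ∃ z ∈ hf, h = ky 4 z
  · obtain ⟨z, hz, rfl⟩ := c4
    by_cases hm : app g z ∈ om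
    · refine ⟨app g z, homs hm, ⟨?_, ?_, ?_, ?_, ?_, ?_, ?_, ?_, ?_, ?_, ?_, ?_, ?_⟩⟩
      case refine_5 =>
        intro z' hz' he h'
        obtain rfl := (klm_ky_inj he).2
        rfl
      all_goals (intros; exact kn_void ‹ky _ _ = ky _ _› (by decide))
    · refine ⟨∅, hnS0, ⟨?_, ?_, ?_, ?_, ?_, ?_, ?_, ?_, ?_, ?_, ?_, ?_, ?_⟩⟩
      case refine_5 =>
        intro z' hz' he h'
        obtain rfl := (klm_ky_inj he).2
        exact absurd h' hm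
      all_goals (intros; exact kn_void ‹ky _ _ = ky _ _› (by decide))
  by_cases c5 : ∃ z ∈ hf, h = ky 5 z
  · obtain ⟨z, hz, rfl⟩ := c5
    by_cases hm : app g z ∈ app g ∅
    · have hrl := hE.rl
      obtain ⟨n, hn, w, hw, hnw⟩ := ZFSet.mem_prod.1 (hrl.1 hm)
      have hw2 : w = app (app g ∅) n := by
        rw [hnw] at hm
        exact (app_eq (svl_of_isFunc hrl) hm).symm
      refine ⟨n, homs hn, ⟨?_, ?_, ?_, ?_, ?_, ?_, ?_, ?_, ?_, ?_, ?_, ?_, ?_⟩⟩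
      case refine_6 =>
        intro z' hz' he h'
        obtain rfl := (klm_ky_inj he).2
        exact ⟨hn, by rw [hnw, hw2]⟩
      all_goals (intros; exact kn_void ‹ky _ _ = ky _ _› (by decide))
    · refine ⟨∅, hnS0, ⟨?_, ?_, ?_, ?_, ?_, ?_, ?_, ?_, ?_, ?_, ?_, ?_, ?_⟩⟩
      case refine_6 =>
        intro z' hz' he h'
        obtain rfl := (klm_ky_inj he).2
        exact absurd h' hm
      all_goals (intros; exact kn_void ‹ky _ _ = ky _ _› (by decide))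
  by_cases c9 : ∃ n ∈ om, h = ky 9 n
  · obtain ⟨n, hn, rfl⟩ := c9
    refine ⟨app (app g ∅) n, app_mem hE.rl hn, ⟨?_, ?_, ?_, ?_, ?_, ?_, ?_, ?_, ?_, ?_, ?_, ?_, ?_⟩⟩
    case refine_7 =>
      intro n' hn' he
      obtain rfl := (klm_ky_inj he).2
      rfl
    all_goals (intros; exact kn_void ‹ky _ _ = ky _ _› (by decide))
  by_cases c6 : ∃ m ∈ hf, ∃ n ∈ hf, h = ky 6 (ZFSet.pair m n)
  · obtain ⟨m, hm, n, hn, rfl⟩ := c6
    obtain ⟨b, hb, hb2⟩ := sur _ (z2 _ (gT m hm) _ (gT n hn))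
    refine ⟨b, hb, ⟨?_, ?_, ?_, ?_, ?_, ?_, ?_, ?_, ?_, ?_, ?_, ?_, ?_⟩⟩
    case refine_8 =>
      intro m' hm' n' hn' he
      obtain ⟨rfl, rfl⟩ := ZFSet.pair_inj.1 (klm_ky_inj he).2
      exact hb2
    all_goals (intros; exact kn_void ‹ky _ _ = ky _ _› (by decide))
  by_cases c7 : ∃ m ∈ hf, h = ky 7 m
  · obtain ⟨m, hm, rfl⟩ := c7
    obtain ⟨b, hb, hb2⟩ := sur _ (z3 _ (gT m hm))
    refine ⟨b, hb, ⟨?_, ?_, ?_, ?_, ?_, ?_, ?_, ?_, ?_, ?_, ?_, ?_, ?_⟩⟩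
    case refine_9 =>
      intro m' hm' he
      obtain rfl := (klm_ky_inj he).2
      exact hb2
    all_goals (intros; exact kn_void ‹ky _ _ = ky _ _› (by decide))
  by_cases c8 : ∃ m ∈ hf, ∃ z ∈ hf, h = ky 8 (ZFSet.pair m z)
  · obtain ⟨m, hm, z, hz, rfl⟩ := c8
    by_cases hu : ∃ u ∈ app g m, app g z ∈ u
    · obtain ⟨u, hu1, hu2⟩ := hu
      obtain ⟨b, hb, rfl⟩ := sur u (trT _ (gT m hm) u hu1)
      refine ⟨b, hb, ⟨?_, ?_, ?_, ?_, ?_, ?_, ?_, ?_, ?_, ?_, ?_, ?_, ?_⟩⟩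
      case refine_10 =>
        intro m' hm' n' hn' he _
        obtain ⟨rfl, rfl⟩ := ZFSet.pair_inj.1 (klm_ky_inj he).2
        exact ⟨hu2, hu1⟩
      all_goals (intros; exact kn_void ‹ky _ _ = ky _ _› (by decide))
    · refine ⟨∅, hnS0, ⟨?_, ?_, ?_, ?_, ?_, ?_, ?_, ?_, ?_, ?_, ?_, ?_, ?_⟩⟩
      case refine_10 =>
        intro m' hm' n' hn' he h'
        obtain ⟨rfl, rfl⟩ := ZFSet.pair_inj.1 (klm_ky_inj he).2
        exact absurd h' hu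
      all_goals (intros; exact kn_void ‹ky _ _ = ky _ _› (by decide))
  by_cases c10 : ∃ c ∈ CD, ∃ t ∈ PL hf, ∃ a ∈ hf, h = ky 10 (ZFSet.pair c (ZFSet.pair t a))
  · obtain ⟨c, hc, t, ht, a, ha, rfl⟩ := c10
    obtain ⟨b, hb, hb2⟩ := sur _ (z5 c hc _ (kn_mpl_mem hon ht) _ (gT a ha))
    refine ⟨b, hb, ⟨?_, ?_, ?_, ?_, ?_, ?_, ?_, ?_, ?_, ?_, ?_, ?_, ?_⟩⟩
    case refine_11 =>
      intro c' hc' t' ht' a' ha' he
      obtain ⟨rfl, he2⟩ := ZFSet.pair_inj.1 (klm_ky_inj he).2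
      obtain ⟨rfl, rfl⟩ := ZFSet.pair_inj.1 he2
      exact hb2
    all_goals (intros; exact kn_void ‹ky _ _ = ky _ _› (by decide))
  by_cases c11 : ∃ c ∈ CD, ∃ t ∈ PL hf, ∃ a ∈ hf, h = ky 11 (ZFSet.pair c (ZFSet.pair t a))
  · obtain ⟨c, hc, t, ht, a, ha, rfl⟩ := c11
    have htT := kn_mpl_mem hon ht
    have haT := gT a ha
    have hc5 : ZFSet.pair (nS 5) c ∈ CD := by
      obtain ⟨φ, rfl⟩ := mem_CD.1 hc
      exact cd_mem_CD (.ex φ)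
    have hset := z5 _ hc5 _ htT _ haT
    obtain ⟨b', hb', hb2⟩ := z6 c hc _ htT _ hset (by
      intro x hx
      rw [ZFSet.mem_sep] at hx
      exact (kn_ex hc htT (trT _ haT x hx.1)).1 hx.2)
    obtain ⟨b, hb, rfl⟩ := sur b' hb'
    refine ⟨b, hb, ⟨?_, ?_, ?_, ?_, ?_, ?_, ?_, ?_, ?_, ?_, ?_, ?_, ?_⟩⟩
    case refine_12 =>
      intro c' hc' t' ht' a' ha' he x hx hy
      obtain ⟨rfl, he2⟩ := ZFSet.pair_inj.1 (klm_ky_inj he).2
      obtain ⟨rfl, rfl⟩ := ZFSet.pair_inj.1 he2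
      refine hb2 x ?_
      rw [ZFSet.mem_sep]
      exact ⟨hx, (kn_ex hc htT (trT _ haT x hx)).2 hy⟩
    all_goals (intros; exact kn_void ‹ky _ _ = ky _ _› (by decide))
  by_cases c12 : ∃ c ∈ CD, ∃ t ∈ PL hf, ∃ a ∈ hf, ∃ x ∈ hf,
      h = ky 12 (ZFSet.pair c (ZFSet.pair t (ZFSet.pair a x)))
  · obtain ⟨c, hc, t, ht, a, ha, x, hx, rfl⟩ := c12
    by_cases hu : ∃ y ∈ app g a, psh y (psh (app g x) (mpl g t)) ∈ sS T ∅ c
    · obtain ⟨u, hu1, hu2⟩ := hu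
      obtain ⟨b, hb, rfl⟩ := sur u (trT _ (gT a ha) u hu1)
      refine ⟨b, hb, ⟨?_, ?_, ?_, ?_, ?_, ?_, ?_, ?_, ?_, ?_, ?_, ?_, ?_⟩⟩
      case refine_13 =>
        intro c' hc' t' ht' a' ha' x' hx' he _
        obtain ⟨rfl, he2⟩ := ZFSet.pair_inj.1 (klm_ky_inj he).2
        obtain ⟨rfl, he3⟩ := ZFSet.pair_inj.1 he2
        obtain ⟨rfl, rfl⟩ := ZFSet.pair_inj.1 he3
        exact ⟨hu1, hu2⟩
      all_goals (intros; exact kn_void ‹ky _ _ = ky _ _› (by decide))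
    · refine ⟨∅, hnS0, ⟨?_, ?_, ?_, ?_, ?_, ?_, ?_, ?_, ?_, ?_, ?_, ?_, ?_⟩⟩
      case refine_13 =>
        intro c' hc' t' ht' a' ha' x' hx' he h'
        obtain ⟨rfl, he2⟩ := ZFSet.pair_inj.1 (klm_ky_inj he).2
        obtain ⟨rfl, he3⟩ := ZFSet.pair_inj.1 he2
        obtain ⟨rfl, rfl⟩ := ZFSet.pair_inj.1 he3
        exact absurd h' hu
      all_goals (intros; exact kn_void ‹ky _ _ = ky _ _› (by decide))
  refine ⟨∅, hnS0, ⟨?_, ?_, ?_, ?_, ?_, ?_, ?_, ?_, ?_, ?_, ?_, ?_, ?_⟩⟩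
  · exact fun c hc t ht he => absurd ⟨c, hc, t, ht, he⟩ c0
  · exact fun c hc t ht he => absurd ⟨c, hc, t, ht, he⟩ c1
  · exact fun c hc t ht he => absurd ⟨c, hc, t, ht, he⟩ c2
  · exact fun c hc t ht he => absurd ⟨c, hc, t, ht, he⟩ c3
  · exact fun c hc he => absurd ⟨c, hc, he⟩ c4
  · exact fun c hc he => absurd ⟨c, hc, he⟩ c5
  · exact fun c hc he => absurd ⟨c, hc, he⟩ c9
  · exact fun c hc t ht he => absurd ⟨c, hc, t, ht, he⟩ c6
  · exact fun c hc he => absurd ⟨c, hc, he⟩ c7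
  · exact fun c hc t ht he => absurd ⟨c, hc, t, ht, he⟩ c8
  · exact fun c hc t ht a ha he => absurd ⟨c, hc, t, ht, a, ha, he⟩ c10
  · exact fun c hc t ht a ha he => absurd ⟨c, hc, t, ht, a, ha, he⟩ c11
  · exact fun c hc t ht a ha x hx he => absurd ⟨c, hc, t, ht, a, ha, x, hx, he⟩ c12

end SE
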